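import Mathlib
import Pool.Agent.H46R3.DG.Stmts2

/-!
# Large deviations for occurrences of words, from large deviations for digits

Task GW of the project on low digits of powers of a prime.  The occurrences of a word of length
`L` are split by the residue of the place modulo `L`; on each residue class they are occurrences
of one digit in base `q ^ L`.
-/

set_option autoImplicit false

namespace Pool.Agent.H842R5.DG

open Finset Pool.Agent.H46R3.DG

/-- the number of `j` with `r + j L < l` -/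
def lr (L l r : ℕ) : ℕ := (l - r + (L - 1)) / L

theorem lt_lr_iff {L l r j : ℕ} (hL : 1 ≤ L) : j < lr L l r ↔ r + j * L < l := by
  unfold lr
  rw [Nat.lt_iff_add_one_le, Nat.le_div_iff_mul_le (by omega), Nat.add_mul]
  constructor <;> intro h <;> omega

theorem le_add_lr {L l r : ℕ} (hL : 1 ≤ L) : l ≤ r + L * lr L l r := by
  by_contra hcon
  push Not at hcon
  have : lr L l r < lr L l r := (lt_lr_iff hL).2 (by rw [Nat.mul_comm]; exact hcon)
  omega

theorem lr_le {L l r : ℕ} : L * lr L l r ≤ l + L := by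
  unfold lr
  have := Nat.mul_div_le (l - r + (L - 1)) L
  omega

theorem card_split {L : ℕ} (hL : 1 ≤ L) (l : ℕ) (P : ℕ → Prop) [DecidablePred P] :
    #{i ∈ range l | P i} = ∑ r ∈ range L, #{j ∈ range (lr L l r) | P (r + j * L)} := by
  rw [Finset.card_eq_sum_card_fiberwise (f := fun i => i % L) (t := range L)
    (fun i _ => by simpa using Nat.mod_lt i (by omega))]
  refine Finset.sum_congr rfl fun r hr => ?_
  have hr' : r < L := Finset.mem_range.1 hr
  symm
  refine Finset.card_bij (fun j _ => r + j * L) ?_ ?_ ?_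
  · intro j hj
    rw [Finset.mem_filter, Finset.mem_range, lt_lr_iff hL] at hj
    simp only [Finset.mem_filter, Finset.mem_range]
    refine ⟨⟨hj.1, hj.2⟩, ?_⟩
    rw [Nat.add_mul_mod_self_right, Nat.mod_eq_of_lt hr']
  · intro a _ b _ hab
    have h1 : a * L = b * L := by simpa using hab
    exact Nat.eq_of_mul_eq_mul_right (by omega) h1
  · intro i hi
    simp only [Finset.mem_filter, Finset.mem_range] at hi
    have h2 : r + i / L * L = i := by
      rw [← hi.2, Nat.mul_comm]; exact Nat.mod_add_div i L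
    refine ⟨i / L, ?_, h2⟩
    rw [Finset.mem_filter, Finset.mem_range, lt_lr_iff hL, h2]
    exact hi.1

theorem sum_lr {L : ℕ} (hL : 1 ≤ L) (l : ℕ) : ∑ r ∈ range L, lr L l r = l := by
  have h := card_split hL l (fun _ => True)
  simp only [Finset.filter_true, Finset.card_range] at h
  exact h.symm

theorem cw_eq {q L : ℕ} (hL : 1 ≤ L) (w l v : ℕ) :
    cw q L w l v = ∑ r ∈ range L, cnt (q ^ L) (w / q ^ r) (lr L l r) v := by
  unfold cw cnt
  rw [card_split hL]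
  refine Finset.sum_congr rfl fun r _ => ?_
  congr 1
  refine Finset.filter_congr fun j _ => ?_
  rw [Nat.div_div_eq_div_mul, ← pow_mul, ← pow_add, Nat.mul_comm L j]

/-- the bad words -/
def Bad (Q : ℕ) (ε : ℝ) (m n v : ℕ) : Prop :=
  ε * n < |(cnt Q m n v : ℝ) - (n : ℝ) / Q|

theorem bad_of {q L : ℕ} (hL : 1 ≤ L) {ε : ℝ} {w l v : ℕ}
    (h : ε * l < |(cw q L w l v : ℝ) - (l : ℝ) / (q : ℝ) ^ L|) :
    ∃ r ∈ range L, Bad (q ^ L) ε (w / q ^ r) (lr L l r) v := by
  by_contra hcon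
  push Not at hcon
  have h1 : |(cw q L w l v : ℝ) - (l : ℝ) / (q : ℝ) ^ L| ≤ ε * l := by
    have e1 : (cw q L w l v : ℝ) - (l : ℝ) / (q : ℝ) ^ L =
        ∑ r ∈ range L, ((cnt (q ^ L) (w / q ^ r) (lr L l r) v : ℝ) -
          ((lr L l r : ℕ) : ℝ) / ((q ^ L : ℕ) : ℝ)) := by
      rw [Finset.sum_sub_distrib, ← Finset.sum_div, cw_eq hL]
      congr 1
      · push_cast; rfl
      · rw [← Nat.cast_sum, sum_lr hL]; push_cast; rfl
    rw [e1]
    refine (Finset.abs_sum_le_sum_abs _ _).trans ?_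
    have e2 : ε * (l : ℝ) = ∑ r ∈ range L, ε * ((lr L l r : ℕ) : ℝ) := by
      rw [← Finset.mul_sum, ← Nat.cast_sum, sum_lr hL]
    rw [e2]
    refine Finset.sum_le_sum fun r hr => ?_
    have := hcon r hr
    unfold Bad at this
    exact not_lt.1 this
  exact absurd h (not_lt.2 h1)

theorem taskGW : TaskGW := by
  classical
  intro hG q L ε hq hL hε
  have hQ : 2 ≤ q ^ L := hq.trans (Nat.le_self_pow (by omega) q)
  obtain ⟨η₀, K, hη₀, hK, hb⟩ := hG (q ^ L) ε hQ hε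
  set η : ℝ := min η₀ 1 with hηdef
  have hη : 0 < η := lt_min hη₀ one_pos
  have hη1 : η ≤ 1 := min_le_right _ _
  have hηη : η ≤ η₀ := min_le_left _ _
  have hq1 : (1 : ℝ) ≤ q := by exact_mod_cast (by omega : 1 ≤ q)
  have hq0 : (0 : ℝ) < q := by linarith
  refine ⟨η, L * K * (q : ℝ) ^ (2 * L : ℕ), hη, ?_, ?_⟩
  · have : (0 : ℝ) < L := by exact_mod_cast (by omega : 0 < L)
    positivity
  intro l v hv
  have hsub : {w ∈ range (q ^ l) | ε * l < |(cw q L w l v : ℝ) - (l : ℝ) / (q : ℝ) ^ L|} ⊆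
      (range L).biUnion fun r =>
        {w ∈ range (q ^ l) | Bad (q ^ L) ε (w / q ^ r) (lr L l r) v} := by
    intro w hw
    rw [Finset.mem_filter] at hw
    obtain ⟨r, hr, hbad⟩ := bad_of hL hw.2
    rw [Finset.mem_biUnion]
    exact ⟨r, hr, Finset.mem_filter.2 ⟨hw.1, hbad⟩⟩
  have hcard : ∀ r ∈ range L,
      ((#{w ∈ range (q ^ l) | Bad (q ^ L) ε (w / q ^ r) (lr L l r) v} : ℕ) : ℝ) ≤
        K * (q : ℝ) ^ (2 * L : ℕ) * (q : ℝ) ^ ((1 - η) * (l : ℝ)) := by
    intro r hr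
    have hrL : r < L := Finset.mem_range.1 hr
    have hqr : 0 < q ^ r := by positivity
    have h1 : #{w ∈ range (q ^ l) | Bad (q ^ L) ε (w / q ^ r) (lr L l r) v} ≤
        #({w ∈ range ((q ^ L) ^ lr L l r) | Bad (q ^ L) ε w (lr L l r) v} ×ˢ range (q ^ r)) := by
      refine Finset.card_le_card_of_injOn (fun w => (w / q ^ r, w % q ^ r)) ?_ ?_
      · intro w hw
        have hw' := Finset.mem_filter.1 (Finset.mem_coe.1 hw)
        rw [Finset.mem_range] at hw'
        refine Finset.mem_coe.2 (Finset.mem_product.2 ⟨Finset.mem_filter.2 ⟨?_, hw'.2⟩, ?_⟩)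
        · rw [Finset.mem_range, Nat.div_lt_iff_lt_mul hqr, ← pow_mul, ← pow_add]
          refine hw'.1.trans_le (Nat.pow_le_pow_right (by omega) ?_)
          have := le_add_lr (l := l) (r := r) hL
          omega
        · exact Finset.mem_range.2 (Nat.mod_lt _ hqr)
      · intro a _ b _ hab
        simp only [Prod.mk.injEq] at hab
        rw [← Nat.div_add_mod a (q ^ r), hab.1, hab.2, Nat.div_add_mod]
    have h2 := hb (lr L l r) v hv
    rw [Finset.card_product, Finset.card_range] at h1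
    have h3 : ((#{w ∈ range (q ^ l) | Bad (q ^ L) ε (w / q ^ r) (lr L l r) v} : ℕ) : ℝ) ≤
        (K * ((q ^ L : ℕ) : ℝ) ^ ((1 - η₀) * ((lr L l r : ℕ) : ℝ))) * (q : ℝ) ^ r := by
      have h4 : ((#{w ∈ range (q ^ l) | Bad (q ^ L) ε (w / q ^ r) (lr L l r) v} : ℕ) : ℝ) ≤
        ((#{w ∈ range ((q ^ L) ^ lr L l r) | Bad (q ^ L) ε w (lr L l r) v} : ℕ) : ℝ) *
          (q : ℝ) ^ r := by
        exact_mod_cast h1
      refine h4.trans ?_
      gcongr
      exact h2
    refine h3.trans ?_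
    have h5 : ((q ^ L : ℕ) : ℝ) ^ ((1 - η₀) * ((lr L l r : ℕ) : ℝ)) ≤
        (q : ℝ) ^ ((1 - η) * ((l : ℝ) + L)) := by
      have e1 : ((q ^ L : ℕ) : ℝ) = (q : ℝ) ^ (L : ℝ) := by
        rw [Real.rpow_natCast]; push_cast; rfl
      rw [e1, ← Real.rpow_mul hq0.le]
      refine Real.rpow_le_rpow_of_exponent_le hq1 ?_
      have h6 : (L : ℝ) * ((lr L l r : ℕ) : ℝ) ≤ (l : ℝ) + L := by exact_mod_cast lr_le
      have h7 : (0 : ℝ) ≤ (L : ℝ) * ((lr L l r : ℕ) : ℝ) := by positivity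
      calc (L : ℝ) * ((1 - η₀) * ((lr L l r : ℕ) : ℝ))
          = (1 - η₀) * ((L : ℝ) * ((lr L l r : ℕ) : ℝ)) := by ring
        _ ≤ (1 - η) * ((L : ℝ) * ((lr L l r : ℕ) : ℝ)) := by
            apply mul_le_mul_of_nonneg_right _ h7; linarith
        _ ≤ (1 - η) * ((l : ℝ) + L) := by
            apply mul_le_mul_of_nonneg_left h6; linarith
    have h8 : (q : ℝ) ^ ((1 - η) * ((l : ℝ) + L)) ≤ (q : ℝ) ^ (L : ℕ) * (q : ℝ) ^ ((1 - η) * (l : ℝ)) := by
      rw [← Real.rpow_natCast (q : ℝ) L, ← Real.rpow_add hq0]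
      refine Real.rpow_le_rpow_of_exponent_le hq1 ?_
      have : (0 : ℝ) ≤ (L : ℝ) := by positivity
      nlinarith
    have h9 : (q : ℝ) ^ r ≤ (q : ℝ) ^ (L : ℕ) := pow_le_pow_right₀ hq1 hrL.le
    have hX : (0 : ℝ) < (q : ℝ) ^ ((1 - η) * (l : ℝ)) := Real.rpow_pos_of_pos hq0 _
    calc K * ((q ^ L : ℕ) : ℝ) ^ ((1 - η₀) * ((lr L l r : ℕ) : ℝ)) * (q : ℝ) ^ r
        ≤ K * ((q : ℝ) ^ (L : ℕ) * (q : ℝ) ^ ((1 - η) * (l : ℝ))) * (q : ℝ) ^ (L : ℕ) := by
          gcongr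
          exact h5.trans h8
      _ = K * (q : ℝ) ^ (2 * L : ℕ) * (q : ℝ) ^ ((1 - η) * (l : ℝ)) := by ring
  calc ((#{w ∈ range (q ^ l) | ε * l < |(cw q L w l v : ℝ) - (l : ℝ) / (q : ℝ) ^ L|} : ℕ) : ℝ)
      ≤ ((∑ r ∈ range L,
          #{w ∈ range (q ^ l) | Bad (q ^ L) ε (w / q ^ r) (lr L l r) v} : ℕ) : ℝ) := by
        exact_mod_cast (Finset.card_le_card hsub).trans Finset.card_biUnion_le
    _ ≤ ∑ r ∈ range L, K * (q : ℝ) ^ (2 * L : ℕ) * (q : ℝ) ^ ((1 - η) * (l : ℝ)) := by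
        push_cast
        exact Finset.sum_le_sum hcard
    _ = L * K * (q : ℝ) ^ (2 * L : ℕ) * (q : ℝ) ^ ((1 - η) * (l : ℝ)) := by
        rw [Finset.sum_const, Finset.card_range, nsmul_eq_mul]; ring

end Pool.Agent.H842R5.DG
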